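import Pool.Agent.R964.FppMain

/-!
# MP_b09029: essential and influential edges do not have comparable probabilities

`G d n` is the graph on `ℤ^d ∩ [-2n, 2n]^d`, `law d n p` is the law of the i.i.d. weights
(`true` is the weight `a`, with probability `p`, and `false` is the weight `b`), and `Essential`,
`SemiEssential`, `Influential`, `VeryInfluential` are the events `E_j`, `Ê_j`, `A_j`, `Â_j` of the
problem, for geodesics from `0` to `n v`; here `v = e_1`.
-/

set_option autoImplicit false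

open MeasureTheory
open scoped NNReal ENNReal

namespace Pool.Agent.Results.MP_b09029_pr.Disproof

open Pool.Agent.R964.Fpp

/-- The direction `v = e_1 = (1, 0, ..., 0)`. -/
def dir (d : ℕ) : Fin d → ℤ := fun i => if (i : ℕ) = 0 then 1 else 0

lemma dir_bound (d : ℕ) : ∀ i, |dir d i| ≤ 2 := by
  intro i
  unfold dir
  split_ifs <;> norm_num

/-- The probability `P(E_j)`. -/
noncomputable def PE (d n : ℕ) (a b p : ℝ) (j : Edge d n) : ℝ≥0∞ :=
  law d n p (Essential a b (dir d) (dir_bound d) j)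

/-- The probability `P(Ê_j)`. -/
noncomputable def PEhat (d n : ℕ) (a b p : ℝ) (j : Edge d n) : ℝ≥0∞ :=
  law d n p (SemiEssential a b (dir d) (dir_bound d) j)

/-- The probability `P(A_j)`. -/
noncomputable def PA (d n : ℕ) (a b p : ℝ) (j : Edge d n) : ℝ≥0∞ :=
  law d n p (Influential a b (dir d) (dir_bound d) j)

/-- The probability `P(Â_j)`. -/
noncomputable def PAhat (d n : ℕ) (a b p : ℝ) (j : Edge d n) : ℝ≥0∞ :=
  law d n p (VeryInfluential a b (dir d) (dir_bound d) j)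

/-- The three inequalities of the conjecture for the edge `j` of `W_n`, with the constant `C`. -/
def Ineqs (d n : ℕ) (a b p : ℝ) (C : ℝ≥0) (j : Edge d n) : Prop :=
  PA d n a b p j ≤ C * PAhat d n a b p j ∧ PEhat d n a b p j ≤ C * PE d n a b p j ∧
    PEhat d n a b p j ≤ C * PAhat d n a b p j

/-- The conjecture for `v = e_1`: one constant for all `n ≥ 1` and all `j ∈ W_n`. -/
def Conjecture (d : ℕ) (a b p : ℝ) : Prop :=
  ∃ C : ℝ≥0, ∀ n : ℕ, 1 ≤ n → ∀ j : Edge d n, Ineqs d n a b p C j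

/-- The weaker reading for `v = e_1`: for every edge `{x, y}` of `ℤ^d` there is a constant that
works for all `n ≥ 1` such that `{x, y}` is an edge of `G_n`. -/
def WeakConjecture (d : ℕ) (a b p : ℝ) : Prop :=
  ∀ x y : Fin d → ℤ, ∑ i, |x i - y i| = 1 →
    ∃ C : ℝ≥0, ∀ n : ℕ, 1 ≤ n → ∀ j : Edge d n,
      Sym2.map (fun z : V d n => z.1) j.1 = s(x, y) →
      Ineqs d n a b p C j

section core

variable {d n h : ℕ} {a b p : ℝ}

lemma dir_eq : dir (d + 2) = e1 d := by
  funext i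
  unfold dir e1
  by_cases h : i = 0
  · subst h; simp
  · have : (i : ℕ) ≠ 0 := fun h' => h (Fin.ext h')
    rw [if_neg this, Pi.single_eq_of_ne h]

lemma ev_congr {v w : Fin (d + 2) → ℤ} (hv : ∀ i, |v i| ≤ 2) (hw : ∀ i, |w i| ≤ 2) (e : v = w)
    (j : Edge (d + 2) n) :
    Essential a b v hv j = Essential a b w hw j ∧
    SemiEssential a b v hv j = SemiEssential a b w hw j ∧
    Influential a b v hv j = Influential a b w hw j ∧
    VeryInfluential a b v hv j = VeryInfluential a b w hw j := by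
  subst e
  exact ⟨rfl, rfl, rfl, rfl⟩

lemma pos_of_mem (hp : 0 < p) (hp1 : p < 1) {S : Set (Config (d + 2) n)} {ω : Config (d + 2) n}
    (h : ω ∈ S) : 0 < law (d + 2) n p S :=
  (law_pos hp hp1 ω).trans_le (measure_mono (Set.singleton_subset_iff.2 h))

lemma core_semi (ha : 0 < a) (hab : a < b) (hp : 0 < p) (hp1 : p < 1) (hn : 1 ≤ n) (hh1 : 1 ≤ h)
    (hh : h ≤ 2 * n) (hb : a * (n + 2 * h) ≤ b * n) :
    0 < PEhat (d + 2) n a b p (rim d hh hn hh1) := by
  unfold PEhat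
  rw [(ev_congr (dir_bound (d + 2)) (e1_bound d) dir_eq _).2.1]
  exact pos_of_mem hp hp1 (semi ha hab hn hh1 hh hb)

lemma core_ess (ha : 0 < a) (hab : a < b) (hp : 0 < p) (hp1 : p < 1) (hn : 1 ≤ n) (hh1 : 1 ≤ h)
    (hh : h ≤ 2 * n) (hb : a * (n + 2 * h) < b * n) :
    0 < PE (d + 2) n a b p (rim d hh hn hh1) := by
  unfold PE
  rw [(ev_congr (dir_bound (d + 2)) (e1_bound d) dir_eq _).1]
  exact pos_of_mem hp hp1 (ess ha hab hn hh1 hh hb)

lemma core_infl (ha : 0 < a) (hab : a < b) (hp : 0 < p) (hp1 : p < 1) (hn : 1 ≤ n) (hh1 : 1 ≤ h)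
    (hh : h ≤ 2 * n) (hb : a * (n + 2 * h) < b * n) :
    0 < PA (d + 2) n a b p (rim d hh hn hh1) := by
  unfold PA
  rw [(ev_congr (dir_bound (d + 2)) (e1_bound d) dir_eq _).2.2.1]
  exact pos_of_mem hp hp1 (infl ha hab hn hh1 hh hb)

lemma core_very (ha : 0 < a) (hab : a < b) (hn : 1 ≤ n) (hh1 : 1 ≤ h)
    (hh : h ≤ 2 * n) (hb : b * n < a * (n + 2 * h) + (b - a)) :
    PAhat (d + 2) n a b p (rim d hh hn hh1) = 0 := by
  unfold PAhat
  rw [(ev_congr (dir_bound (d + 2)) (e1_bound d) dir_eq _).2.2.2,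
    not_very ha hab hn hh1 hh hb, measure_empty]

lemma core_ness (ha : 0 < a) (hab : a < b) (hn : 1 ≤ n) (hh1 : 1 ≤ h)
    (hh : h ≤ 2 * n) (hb : b * n = a * (n + 2 * h)) :
    PE (d + 2) n a b p (rim d hh hn hh1) = 0 := by
  unfold PE
  rw [(ev_congr (dir_bound (d + 2)) (e1_bound d) dir_eq _).1,
    not_ess ha hab hn hh1 hh hb, measure_empty]

/-- the numerology: `x = 2a/(b-a)` -/
lemma num_le (hab : a < b) {n h : ℕ} (hx : (h : ℝ) * (2 * a / (b - a)) ≤ n) :
    a * (n + 2 * h) ≤ b * n := by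
  have h0 : 0 < b - a := sub_pos.2 hab
  rw [← mul_div_assoc, div_le_iff₀ h0] at hx
  linarith

lemma num_lt (hab : a < b) {n h : ℕ} (hx : (h : ℝ) * (2 * a / (b - a)) < n) :
    a * (n + 2 * h) < b * n := by
  have h0 : 0 < b - a := sub_pos.2 hab
  rw [← mul_div_assoc, div_lt_iff₀ h0] at hx
  linarith

lemma num_eq (hab : a < b) {n h : ℕ} (hx : (h : ℝ) * (2 * a / (b - a)) = n) :
    b * n = a * (n + 2 * h) := by
  have h0 : 0 < b - a := sub_pos.2 hab
  rw [← mul_div_assoc, div_eq_iff h0.ne'] at hx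
  linarith

lemma num_very (hab : a < b) {n h : ℕ} (hx : (n : ℝ) - 1 < (h : ℝ) * (2 * a / (b - a))) :
    b * n < a * (n + 2 * h) + (b - a) := by
  have h0 : 0 < b - a := sub_pos.2 hab
  rw [← mul_div_assoc, lt_div_iff₀ h0] at hx
  linarith

lemma ceil_facts (ha : 0 < a) (hab : a < b) (h : ℕ) (hh : 1 ≤ h) :
    1 ≤ ⌈(h : ℝ) * (2 * a / (b - a))⌉₊ ∧
    (h : ℝ) * (2 * a / (b - a)) ≤ (⌈(h : ℝ) * (2 * a / (b - a))⌉₊ : ℝ) ∧
    (⌈(h : ℝ) * (2 * a / (b - a))⌉₊ : ℝ) - 1 < (h : ℝ) * (2 * a / (b - a)) := by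
  have h0 : 0 < b - a := sub_pos.2 hab
  have h1 : 0 < (h : ℝ) * (2 * a / (b - a)) := by
    have : (0 : ℝ) < h := by exact_mod_cast hh
    positivity
  refine ⟨Nat.ceil_pos.2 h1, Nat.le_ceil _, ?_⟩
  have := Nat.ceil_lt_add_one h1.le
  linarith

lemma half_le (hab : a < b) (h5 : b ≤ 5 * a) : 1 / 2 ≤ 2 * a / (b - a) := by
  have h0 : 0 < b - a := sub_pos.2 hab
  rw [div_le_div_iff₀ two_pos h0]
  linarith

lemma h_le (hab : a < b) (h5 : b ≤ 5 * a) {n h : ℕ}
    (hx : (h : ℝ) * (2 * a / (b - a)) ≤ n) : h ≤ 2 * n := by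
  have h1 := half_le hab h5
  have h2 : (h : ℝ) * (1 / 2) ≤ (h : ℝ) * (2 * a / (b - a)) :=
    mul_le_mul_of_nonneg_left h1 (Nat.cast_nonneg h)
  have h3 : (h : ℝ) ≤ 2 * n := by linarith
  exact_mod_cast h3

/-- the rim edge as a pair of points of `ℤ^d` -/
lemma rim_map (hh : h ≤ 2 * n) (hn : 1 ≤ n) (hh1 : 1 ≤ h) :
    Sym2.map (fun z : V (d + 2) n => z.1) (rim d hh hn hh1).1 =
      s((fun i : Fin (d + 2) => if i = 0 then (0 : ℤ) else if i = 1 then (h : ℤ) else 0),
        (fun i : Fin (d + 2) => if i = 0 then (1 : ℤ) else if i = 1 then (h : ℤ) else 0)) := by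
  have e1 : cx n h h = 0 := by unfold cx; omega
  have e2 : cy n h h = h := by unfold cy; omega
  have e3 : cx n h (h + 1) = 1 := by unfold cx; omega
  have e4 : cy n h (h + 1) = h := by unfold cy; omega
  have h1 : (rect d n h hh h).1 =
      fun i : Fin (d + 2) => if i = 0 then (0 : ℤ) else if i = 1 then (h : ℤ) else 0 := by
    simp only [rect, pt, e1, e2]
  have h2 : (rect d n h hh (h + 1)).1 =
      fun i : Fin (d + 2) => if i = 0 then (1 : ℤ) else if i = 1 then (h : ℤ) else 0 := by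
    simp only [rect, pt, e3, e4]
  rw [← h1, ← h2]
  rfl

end core

/-- **Disproof of the conjecture** (for `v = e_1`, in every dimension `d ≥ 2` and for all
`0 < a < b` and `0 < p < 1`).

1. The conjecture fails, and so does its weaker reading with a constant for each fixed edge.
2. There are `n ≥ 1` and an edge `j` of `G_n` with `P(Â_j) = 0 < P(Ê_j)`, so no constant works in
   the third inequality; for `b ≤ 5a` there is such an edge for infinitely many `n`.
3. If `b ≤ 5a` and `2a/(b-a)` is not a natural number, then for infinitely many `n` there is an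
   edge with `P(Â_j) = 0 < P(A_j)`: no constant works in the first inequality.
4. If `b ≤ 5a` and `b/a` is rational, then for infinitely many `n` there is an edge with
   `P(E_j) = 0 < P(Ê_j)`: no constant works in the second inequality. -/
theorem result (d : ℕ) (hd : 2 ≤ d) (a b p : ℝ) (ha : 0 < a) (hab : a < b) (hp : 0 < p)
    (hp1 : p < 1) :
    (¬ Conjecture d a b p ∧ ¬ WeakConjecture d a b p) ∧
    (∃ n : ℕ, 1 ≤ n ∧ ∃ j : Edge d n, PAhat d n a b p j = 0 ∧ 0 < PEhat d n a b p j) ∧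
    (b ≤ 5 * a →
      {n : ℕ | ∃ j : Edge d n, PAhat d n a b p j = 0 ∧ 0 < PEhat d n a b p j}.Infinite) ∧
    (b ≤ 5 * a → (¬ ∃ k : ℕ, 2 * a / (b - a) = k) →
      {n : ℕ | ∃ j : Edge d n, PAhat d n a b p j = 0 ∧ 0 < PA d n a b p j}.Infinite) ∧
    (b ≤ 5 * a → (∃ q : ℚ, b / a = q) →
      {n : ℕ | ∃ j : Edge d n, PE d n a b p j = 0 ∧ 0 < PEhat d n a b p j}.Infinite) := by
  obtain ⟨d, rfl⟩ := Nat.exists_eq_add_of_le' hd
  have h0 : 0 < b - a := sub_pos.2 hab
  set x : ℝ := 2 * a / (b - a) with hx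
  have hx0 : 0 < x := by positivity
  -- the case `h = 1`
  have hone : ∃ n : ℕ, ∃ (hn : 1 ≤ n) (hh : 1 ≤ 2 * n),
      PAhat (d + 2) n a b p (rim d hh hn le_rfl) = 0 ∧
        0 < PEhat (d + 2) n a b p (rim d hh hn le_rfl) := by
    obtain ⟨h1, h2, h3⟩ := ceil_facts ha hab 1 le_rfl
    exact ⟨_, h1, by omega, core_very ha hab h1 le_rfl _ (num_very hab h3),
      core_semi ha hab hp hp1 h1 le_rfl _ (num_le hab h2)⟩
  have hweak : ¬ WeakConjecture (d + 2) a b p := by
    obtain ⟨n, hn, hh, h1, h2⟩ := hone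
    intro hw
    obtain ⟨C, hC⟩ := hw (fun i : Fin (d + 2) => if i = 0 then (0 : ℤ) else
      if i = 1 then ((1 : ℕ) : ℤ) else 0) (fun i : Fin (d + 2) => if i = 0 then (1 : ℤ) else
      if i = 1 then ((1 : ℕ) : ℤ) else 0) (by
        rw [Fin.sum_univ_succ, Finset.sum_eq_zero]
        · simp
        · intro i _
          simp [Fin.succ_ne_zero])
    have h3 := (hC n hn _ (rim_map hh hn le_rfl)).2.2
    rw [h1, mul_zero] at h3
    exact absurd h3 (not_le.2 h2)
  have hinf : ∀ (S : Set ℕ), (∀ N : ℕ, ∃ n ∈ S, N < n) → S.Infinite := by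
    intro S hS
    rw [Set.infinite_iff_exists_gt]
    exact hS
  refine ⟨⟨?_, hweak⟩, ?_, ?_, ?_, ?_⟩
  · rintro ⟨C, hC⟩
    exact hweak fun _ _ _ => ⟨C, fun n hn j _ => hC n hn j⟩
  · obtain ⟨n, hn, hh, h1, h2⟩ := hone
    exact ⟨n, hn, _, h1, h2⟩
  · intro h5
    apply hinf
    intro N
    obtain ⟨h, hh⟩ := exists_nat_gt ((N : ℝ) / x)
    rw [div_lt_iff₀ hx0] at hh
    have hh1 : 1 ≤ h := by
      by_contra hcon
      have : h = 0 := by omega
      rw [this] at hh
      simp only [Nat.cast_zero, zero_mul] at hh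
      exact absurd hh (not_lt.2 (Nat.cast_nonneg N))
    obtain ⟨h1, h2, h3⟩ := ceil_facts ha hab h hh1
    have h4 := h_le hab h5 h2
    refine ⟨_, ⟨rim d h4 h1 hh1, core_very ha hab h1 hh1 h4 (num_very hab h3),
      core_semi ha hab hp hp1 h1 hh1 h4 (num_le hab h2)⟩, ?_⟩
    exact_mod_cast hh.trans_le h2
  · intro h5 hnat
    apply hinf
    intro N
    obtain ⟨h', hh'⟩ := exists_nat_gt ((N : ℝ) / x)
    rw [div_lt_iff₀ hx0] at hh'
    -- among `h'` and `h' + 1` there is one for which `h x` is not a natural number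
    obtain ⟨h, hge, hne⟩ : ∃ h : ℕ, h' ≤ h ∧ ¬ ∃ k : ℕ, (h : ℝ) * x = k := by
      by_contra hcon
      push Not at hcon
      obtain ⟨k1, hk1⟩ := hcon h' le_rfl
      obtain ⟨k2, hk2⟩ := hcon (h' + 1) (Nat.le_succ _)
      have h6 : x = (k2 : ℝ) - k1 := by
        rw [← hk1, ← hk2]
        push_cast
        ring
      have h7 : k1 ≤ k2 := by
        have : (k1 : ℝ) ≤ k2 := by linarith
        exact_mod_cast this
      exact hnat ⟨k2 - k1, by rw [Nat.cast_sub h7]; exact h6⟩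
    have hh : (N : ℝ) < h * x := by
      refine hh'.trans_le ?_
      have : (h' : ℝ) ≤ h := by exact_mod_cast hge
      exact mul_le_mul_of_nonneg_right this hx0.le
    have hh1 : 1 ≤ h := by
      by_contra hcon
      have : h = 0 := by omega
      rw [this] at hh
      simp only [Nat.cast_zero, zero_mul] at hh
      exact absurd hh (not_lt.2 (Nat.cast_nonneg N))
    obtain ⟨h1, h2, h3⟩ := ceil_facts ha hab h hh1
    have h4 := h_le hab h5 h2
    have h2' : (h : ℝ) * x < (⌈(h : ℝ) * x⌉₊ : ℝ) := lt_of_le_of_ne h2 fun e => hne ⟨_, e⟩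
    refine ⟨_, ⟨rim d h4 h1 hh1, core_very ha hab h1 hh1 h4 (num_very hab h3),
      core_infl ha hab hp hp1 h1 hh1 h4 (num_lt hab h2')⟩, ?_⟩
    exact_mod_cast hh.trans_le h2
  · rintro h5 ⟨q, hq⟩
    apply hinf
    intro N
    -- `x` is rational
    obtain ⟨r, hr⟩ : ∃ r : ℚ, x = r := by
      refine ⟨2 / (q - 1), ?_⟩
      push_cast
      rw [← hq, hx]
      have h6 : b / a - 1 = (b - a) / a := by field_simp
      rw [h6]
      field_simp
    have hr0 : 0 < r := by
      have : (0 : ℝ) < r := by rw [← hr]; exact hx0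
      exact_mod_cast this
    have hnum : 0 < r.num := Rat.num_pos.2 hr0
    obtain ⟨m, hm⟩ : ∃ m : ℕ, r.num = m := ⟨r.num.toNat, (Int.toNat_of_nonneg hnum.le).symm⟩
    have hm1 : 1 ≤ m := by omega
    have hden : 1 ≤ r.den := r.den_pos
    have hxr : x * r.den = m := by
      rw [hr]
      have := Rat.mul_den_eq_num r
      have h7 : (r : ℝ) * (r.den : ℝ) = (r.num : ℝ) := by exact_mod_cast this
      rw [h7, hm]
      simp
    have h8 : ((((N + 1) * r.den : ℕ) : ℝ)) * x = (((N + 1) * m : ℕ) : ℝ) := by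
      push_cast
      rw [← hxr]
      ring
    have hh1 : 1 ≤ (N + 1) * r.den := Nat.mul_pos (Nat.succ_pos _) hden
    have hn1 : 1 ≤ (N + 1) * m := Nat.mul_pos (Nat.succ_pos _) hm1
    have h4 := h_le hab h5 h8.le
    refine ⟨(N + 1) * m, ⟨rim d h4 hn1 hh1, core_ness ha hab hn1 hh1 h4 (num_eq hab h8),
      core_semi ha hab hp hp1 hn1 hh1 h4 (num_le hab h8.le)⟩, ?_⟩
    calc N < N + 1 := Nat.lt_succ_self N
      _ = (N + 1) * 1 := (mul_one _).symm
      _ ≤ (N + 1) * m := Nat.mul_le_mul_left _ hm1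

end Pool.Agent.Results.MP_b09029_pr.Disproof
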